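import Mathlib
import Pool.Agent.H27.DelC

namespace Pool.Agent.Results.MP_2869d0_nt.Apery
open Finset Pool.Agent.H27.DelA Pool.Agent.H27.DelC

/-- The Apery polynomial `A_n` evaluated at `x`. -/
def A {R : Type*} [CommRing R] (n : ℕ) (x : R) : R :=
  ∑ k ∈ Finset.range (n + 1), (n.choose k : R) ^ 2 * ((n + k).choose k : R) ^ 2 * x ^ k

theorem A_eq {R : Type*} [CommRing R] (k M : ℕ) (h : k < M) (x : R) :
    A k x = ∑ s ∈ range M, (phi s k : R) * fr M x s := by
  have e : A k x = ∑ i ∈ range M, (phi i k : R) * phi i k * x ^ i := by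
    unfold A
    rw [Finset.sum_subset (range_subset_range.mpr h)
      (fun i _ hi => by rw [Nat.choose_eq_zero_of_lt (show k < i by simpa using hi)]; simp)]
    refine Finset.sum_congr rfl fun i _ => ?_
    simp only [phi]; push_cast; ring
  rw [e]
  simp only [fr, Finset.mul_sum]
  rw [Finset.sum_comm]
  refine Finset.sum_congr rfl fun i _ => ?_
  have := congrArg (Int.cast : ℤ → R) (phi_mul k M h i i)
  push_cast at this
  rw [this, Finset.sum_mul]
  exact Finset.sum_congr rfl fun s _ => by ring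

theorem result (p : ℕ) [Fact p.Prime] (n : ℕ) (hn : 0 < n) (x : ℤ_[p]) :
    min (Padic.addValuation ((n : ℕ) : ℚ_[p])) (Padic.addValuation (4 * (x : ℚ_[p]) - 1))
      ≤ Padic.addValuation ((1 / (n : ℚ_[p])) *
          ∑ k ∈ Finset.range n, (2 * (k : ℚ_[p]) + 1) * (-1) ^ k * A k (x : ℚ_[p])) := by
  obtain ⟨m, rfl⟩ : ∃ m, n = m + 1 := ⟨n - 1, by omega⟩
  set F : ℤ_[p] := (-1) ^ m * ∑ s ∈ range (m + 1), (psi m s : ℤ_[p]) * fr (m + 1) x s with hF
  have e : (1 / ((m + 1 : ℕ) : ℚ_[p])) *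
      ∑ k ∈ Finset.range (m + 1), (2 * (k : ℚ_[p]) + 1) * (-1) ^ k * A k (x : ℚ_[p])
        = (F : ℚ_[p]) := by
    rw [Finset.sum_congr rfl fun k hk => by rw [A_eq k (m + 1) (mem_range.mp hk)], alt_expand]
    have h0 : ((m : ℚ_[p]) + 1) ≠ 0 := by exact_mod_cast Nat.succ_ne_zero m
    have : (F : ℚ_[p]) = PadicInt.Coe.ringHom F := rfl
    rw [this, hF]
    simp only [fr, map_mul, map_pow, map_sum, map_neg, map_one, map_intCast]
    push_cast
    field_simp
    rfl
  rw [e]
  have := val_le ((m + 1 : ℕ) : ℤ_[p]) (4 * x - 1) F (by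
    intro d h1 h2
    rw [← Ideal.mem_span_singleton, ← Ideal.Quotient.eq_zero_iff_mem] at h1 h2 ⊢
    set f := Ideal.Quotient.mk (Ideal.span {d})
    have := apery_zero m (f x) (by
      simp only [map_sub, map_mul, map_ofNat, map_one] at h2; linear_combination h2)
      (by simpa using h1)
    rw [hF]
    simp only [fr, map_mul, map_pow, map_sum, map_neg, map_one, map_intCast] at this ⊢
    rw [this, mul_zero])
  have h4 : ((4 : ℤ_[p]) : ℚ_[p]) = 4 := by norm_cast
  simpa [h4] using this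

end Pool.Agent.Results.MP_2869d0_nt.Apery
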