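import Mathlib
import Pool.Agent.H27.DelC

namespace Pool.Agent.Results.MP_2869d0_nt.Delannoy
open Finset Pool.Agent.H27.DelA Pool.Agent.H27.DelC

/-- The Delannoy polynomial `D_n` evaluated at `x`. -/
def D {R : Type*} [CommRing R] (n : ℕ) (x : R) : R :=
  ∑ k ∈ Finset.range (n + 1), (n.choose k : R) * ((n + k).choose k : R) * x ^ k

theorem D_eq {R : Type*} [CommRing R] (k M : ℕ) (h : k < M) (x : R) : D k x = DD M x k := by
  unfold D DD
  rw [Finset.sum_subset (range_subset_range.mpr h)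
    (fun i _ hi => by rw [Nat.choose_eq_zero_of_lt (show k < i by simpa using hi)]; simp)]
  refine Finset.sum_congr rfl fun i _ => ?_
  simp only [phi]; push_cast; ring

def G {R : Type*} [CommRing R] (m : ℕ) (x : R) : R :=
  (-1) ^ m * ∑ s ∈ range (m + 1), (psi m s : R) *
    conv (m + 1) (conv (m + 1) (fun i => x ^ i) (fun i => x ^ i)) (fun i => x ^ i) s

theorem sum_eq {R : Type*} [CommRing R] (m : ℕ) (x : R) :
    ∑ k ∈ Finset.range (m + 1), (2 * (k : R) + 1) * (-1) ^ k * D k x ^ 3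
      = ((m : R) + 1) * G m x := by
  rw [G, ← alt_expand]
  refine Finset.sum_congr rfl fun k hk => ?_
  rw [D_eq k (m + 1) (mem_range.mp hk), ← mul_expand k _ (mem_range.mp hk),
    ← mul_expand k _ (mem_range.mp hk), DD]
  ring

theorem map_G {R S : Type*} [CommRing R] [CommRing S] (f : R →+* S) (m : ℕ) (x : R) :
    f (G m x) = G m (f x) := by
  simp only [G, conv, map_mul, map_pow, map_sum, map_neg, map_one, map_intCast]

theorem result (p : ℕ) [Fact p.Prime] (n : ℕ) (hn : 0 < n) (x : ℤ_[p]) :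
    min (Padic.addValuation ((n : ℕ) : ℚ_[p])) (Padic.addValuation (4 * (x : ℚ_[p]) + 1))
      ≤ Padic.addValuation ((1 / (n : ℚ_[p])) *
          ∑ k ∈ Finset.range n, (2 * (k : ℚ_[p]) + 1) * (-1) ^ k * D k (x : ℚ_[p]) ^ 3) := by
  obtain ⟨m, rfl⟩ : ∃ m, n = m + 1 := ⟨n - 1, by omega⟩
  have e : (1 / ((m + 1 : ℕ) : ℚ_[p])) *
      ∑ k ∈ Finset.range (m + 1), (2 * (k : ℚ_[p]) + 1) * (-1) ^ k * D k (x : ℚ_[p]) ^ 3
        = ((G m x : ℤ_[p]) : ℚ_[p]) := by
    rw [sum_eq]
    have h0 : ((m : ℚ_[p]) + 1) ≠ 0 := by exact_mod_cast Nat.succ_ne_zero m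
    have : ((G m x : ℤ_[p]) : ℚ_[p]) = PadicInt.Coe.ringHom (G m x) := rfl
    rw [this, map_G]
    push_cast
    field_simp
    rfl
  rw [e]
  have := val_le ((m + 1 : ℕ) : ℤ_[p]) (4 * x + 1) (G m x) (by
    intro d h1 h2
    by_cases hd : IsUnit d
    · exact hd.dvd
    have h4 : IsUnit (4 : ℤ_[p]) := by
      rcases IsLocalRing.isUnit_or_isUnit_one_sub_self (4 * x + 1) with h | h
      · exact absurd (isUnit_of_dvd_unit h2 h) hd
      · rw [show 1 - (4 * x + 1) = 4 * (-x) by ring] at h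
        exact isUnit_of_mul_isUnit_left h
    obtain ⟨w, hw⟩ := h4.exists_right_inv
    have hx0 : 4 * (-w) = -1 := by linear_combination -hw
    have hc := cube_closed (m + 2) (-w) hx0 m (by omega)
    rw [Finset.sum_congr rfl fun k hk => by
      rw [← D_eq k (m + 2) (by have := mem_range.mp hk; omega)], sum_eq, pow_two, mul_assoc] at hc
    have h0 : ((m : ℤ_[p]) + 1) ≠ 0 := by exact_mod_cast Nat.succ_ne_zero m
    have hc2 := mul_left_cancel₀ h0 hc
    rw [← Ideal.mem_span_singleton, ← Ideal.Quotient.eq_zero_iff_mem] at h1 h2 ⊢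
    set f := Ideal.Quotient.mk (Ideal.span {d})
    have hfx : f x = f (-w) := by
      have h5 := congrArg f hw
      simp only [map_add, map_mul, map_ofNat, map_one, map_neg] at h2 h5 ⊢
      linear_combination f w * h2 - f x * h5
    rw [map_G, hfx, ← map_G, hc2, map_mul]
    push_cast at h1
    rw [h1, zero_mul])
  have h4 : ((4 : ℤ_[p]) : ℚ_[p]) = 4 := by norm_cast
  simpa [h4] using this

end Pool.Agent.Results.MP_2869d0_nt.Delannoy
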